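import Pool.Agent.J6H99.NX.Stm3
import Pool.Agent.J6H99.NX.MBx

/-!
# Infinitely many geodesic rays: from the canonical model to arbitrary i.i.d. families
-/

set_option autoImplicit false

open MeasureTheory ProbabilityTheory Filter Topology
open scoped ENNReal

namespace Pool.Agent.J6H67.NX

open Pool.Agent.J6H99.NX

variable {e : ℕ}

/-! ### configurations which agree on the lattice edges -/

lemma isEdge_of_adj {x y : V e} (h : (lat e).Adj x y) : IsEdge s(x, y) := ⟨x, y, rfl, h⟩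

lemma cost_congr (q : Par) {ω ω' : Om e} (h : ∀ s, IsEdge s → ω s = ω' s) {x y : V e}
    (p : (lat e).Walk x y) : cost q ω p = cost q ω' p := by
  induction p with
  | nil => simp [cost_nil]
  | cons hxy p ih => rw [cost_cons, cost_cons, ih, h _ (isEdge_of_adj hxy)]

lemma T_congr (q : Par) {ω ω' : Om e} (h : ∀ s, IsEdge s → ω s = ω' s) (x y : V e) :
    T q ω x y = T q ω' x y := by
  unfold T
  congr 1
  funext p
  exact cost_congr q h p

lemma ray_imp (q : Par) {ω ω' : Om e} (h : ∀ s, IsEdge s → ω s = ω' s) {x : ℕ → V e}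
    (hx : Ray q ω x) : Ray q ω' x := by
  obtain ⟨h0, h1, h2, h3⟩ := hx
  refine ⟨h0, h1, h2, fun m n hmn => ?_⟩
  rw [← T_congr q h, h3 m n hmn]
  refine Finset.sum_congr rfl fun k _ => ?_
  rw [h _ (isEdge_of_adj (h1 k))]

lemma ray_congr (q : Par) {ω ω' : Om e} (h : ∀ s, IsEdge s → ω s = ω' s) (x : ℕ → V e) :
    Ray q ω x ↔ Ray q ω' x :=
  ⟨ray_imp q h, ray_imp q fun s hs => (h s hs).symm⟩

/-! ### walks from sequences -/

lemma exists_walk_seq (q : Par) (ω : Om e) (p : ℕ → V e) :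
    ∀ L : ℕ, (∀ k < L, (lat e).Adj (p k) (p (k + 1))) →
      ∃ W : (lat e).Walk (p 0) (p L),
        cost q ω W = ∑ k ∈ Finset.range L, q.w (ω s(p k, p (k + 1))) := by
  intro L
  induction L with
  | zero => intro _; exact ⟨SimpleGraph.Walk.nil, by simp [cost_nil]⟩
  | succ L ih =>
    intro h
    obtain ⟨W, hW⟩ := ih fun k hk => h k (by omega)
    refine ⟨W.append (SimpleGraph.Walk.cons (h L (by omega)) SimpleGraph.Walk.nil), ?_⟩
    rw [cost_append, cost_cons, cost_nil, hW, Finset.sum_range_succ, add_zero]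

/-! ### nondegeneracy -/

lemma exists_split (μ : Measure ℝ) [IsProbabilityMeasure μ] [NullSingletonClass μ]
    (h0 : μ (Set.Iio 0) = 0) :
    ∃ a' b' : ℝ, a' < b' ∧ 0 < μ (Set.Iic a') ∧ 0 < μ (Set.Ici b') := by
  by_contra hne
  push Not at hne
  have hne' : ∀ a' b' : ℝ, a' < b' → 0 < μ (Set.Iic a') → μ (Set.Ici b') = 0 := fun a' b' h1 h2 =>
    nonpos_iff_eq_zero.1 (hne a' b' h1 h2)
  set A : Set ℝ := {x | μ (Set.Iic x) = 0} with hA
  have hAne : (-1 : ℝ) ∈ A := by
    show μ (Set.Iic (-1)) = 0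
    exact measure_mono_null (fun x hx => by
      have : x ≤ -1 := hx
      show x < 0
      linarith) h0
  have hAb : BddAbove A := by
    have h1 : ∃ n : ℕ, μ (Set.Iic (n : ℝ)) ≠ 0 := by
      by_contra hcon
      push Not at hcon
      have h2 : μ Set.univ = 0 := by
        refine measure_mono_null (fun x _ => ?_) (measure_iUnion_null hcon)
        obtain ⟨n, hn⟩ := exists_nat_ge x
        exact Set.mem_iUnion.2 ⟨n, hn⟩
      rw [measure_univ] at h2
      exact one_ne_zero h2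
    obtain ⟨n, hn⟩ := h1
    refine ⟨n, fun x hx => ?_⟩
    by_contra hxb
    push Not at hxb
    exact hn (measure_mono_null (Set.Iic_subset_Iic.2 hxb.le) hx)
  set s := sSup A with hs
  have h1 : μ (Set.Iio s) = 0 := by
    have h2 : Set.Iio s ⊆ ⋃ n : ℕ, Set.Iic (s - 1 / ((n : ℝ) + 1)) := by
      intro x hx
      have hx' : 0 < s - x := sub_pos.2 hx
      obtain ⟨n, hn⟩ := exists_nat_one_div_lt hx'
      exact Set.mem_iUnion.2 ⟨n, by show x ≤ _; linarith⟩
    refine measure_mono_null h2 (measure_iUnion_null fun n => ?_)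
    have h3 : s - 1 / ((n : ℝ) + 1) < s := by
      have : (0 : ℝ) < 1 / ((n : ℝ) + 1) := by positivity
      linarith
    obtain ⟨a, haA, ha⟩ := exists_lt_of_lt_csSup ⟨_, hAne⟩ h3
    exact measure_mono_null (Set.Iic_subset_Iic.2 ha.le) haA
  have h2 : μ (Set.Ioi s) = 0 := by
    have h3 : Set.Ioi s ⊆ ⋃ n : ℕ, Set.Ici (s + 1 / ((n : ℝ) + 1)) := by
      intro x hx
      have hx' : 0 < x - s := sub_pos.2 hx
      obtain ⟨n, hn⟩ := exists_nat_one_div_lt hx'
      exact Set.mem_iUnion.2 ⟨n, by show _ ≤ x; linarith⟩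
    refine measure_mono_null h3 (measure_iUnion_null fun n => ?_)
    have hn0 : (0 : ℝ) < 1 / ((n : ℝ) + 1) := by positivity
    refine hne' (s + 1 / ((n : ℝ) + 1) / 2) _ (by linarith) ?_
    rw [pos_iff_ne_zero]
    intro h4
    have h5 : s + 1 / ((n : ℝ) + 1) / 2 ≤ s := le_csSup hAb h4
    linarith
  have h3 : μ Set.univ ≤ μ (Set.Iio s) + (μ {s} + μ (Set.Ioi s)) := by
    refine (measure_mono fun y _ => ?_).trans
      ((measure_union_le _ _).trans (add_le_add le_rfl (measure_union_le _ _)))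
    rcases lt_trichotomy y s with h | h | h
    · exact Or.inl h
    · exact Or.inr (Or.inl h)
    · exact Or.inr (Or.inr h)
  rw [h1, h2, measure_singleton, measure_univ] at h3
  simp at h3

/-- **Infinitely many geodesic rays** in dimensions two and three, for continuous laws with an
exponential moment; the statement has the form of the frozen statement `S19167`. -/
theorem res13 (hfin : Fin13T) (htr : TransferT) :
  ∀ (d : ℕ), 2 ≤ d → d ≤ 3 →
  ∀ (μ : Measure ℝ), IsProbabilityMeasure μ → NoAtoms μ → μ (Set.Iio 0) = 0 →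
    (∃ β : ℝ, 0 < β ∧ Integrable (fun x => Real.exp (β * x)) μ) →
  ∀ (Ω : Type) (mΩ : MeasurableSpace Ω) (P : Measure Ω), IsProbabilityMeasure P →
  ∀ (t : Sym2 (Fin d → ℤ) → Ω → ℝ),
    (∀ e, Measurable (t e)) →
    iIndepFun
      (fun e : {e : Sym2 (Fin d → ℤ) //
          ∃ x y : Fin d → ℤ, e = s(x, y) ∧ ∑ i, |x i - y i| = 1} => t e.1)
      P →
    (∀ x y : Fin d → ℤ, ∑ i, |x i - y i| = 1 →
      Measure.map (t s(x, y)) P = μ) →
    ∀ᵐ ω ∂P,
      Set.Infinite {γ : ℕ → (Fin d → ℤ) |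
        γ 0 = 0 ∧ Function.Injective γ ∧
        (∀ k, ∑ i, |γ k i - γ (k + 1) i| = 1) ∧
        ∀ m n : ℕ, m ≤ n →
          ∀ (L : ℕ) (q : ℕ → (Fin d → ℤ)), q 0 = γ m → q L = γ n →
            (∀ k < L, ∑ i, |q k i - q (k + 1) i| = 1) →
            ∑ k ∈ Finset.range (n - m), t s(γ (m + k), γ (m + k + 1)) ω ≤
              ∑ k ∈ Finset.range L, t s(q k, q (k + 1)) ω} := by
  intro d hd2 hd3 μ hμ hna h0 hbd Ω mΩ P hP t htm hind hlaw
  have hna' : NullSingletonClass μ := hna
  obtain ⟨e, rfl⟩ : ∃ e, d = e + 2 := ⟨d - 2, by omega⟩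
  obtain ⟨β, hβ, hint⟩ := hbd
  obtain ⟨q, -, hMB⟩ := exists_MB' μ h0 hβ hint
  have hqw : ∀ r : ℝ, 0 ≤ r → q.w r = r := fun r h1 => max_eq_right h1
  have hpos : μ {r | q.w r ≤ 0} = 0 := by
    have h1 : {r : ℝ | q.w r ≤ 0} ⊆ Set.Iio 0 ∪ {0} := by
      intro r hr
      have hr' : max 0 r ≤ 0 := hr
      have h2 := (le_max_right 0 r).trans hr'
      rcases lt_or_eq_of_le h2 with h | h
      · exact Or.inl h
      · exact Or.inr h
    refine measure_mono_null h1 (measure_union_null h0 (measure_singleton _))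
  have hnd : NonDeg q μ := by
    obtain ⟨a', b', hab, ha, hbb⟩ := exists_split μ h0
    have ha0 : 0 ≤ a' := by
      by_contra hneg
      push Not at hneg
      have : μ (Set.Iic a') = 0 :=
        measure_mono_null (fun x hx => lt_of_le_of_lt (show x ≤ a' from hx) hneg) h0
      exact absurd this ha.ne'
    refine ⟨a', b', hab, lt_of_lt_of_le ha (measure_mono fun r hr => ?_),
      lt_of_lt_of_le hbb (measure_mono fun r hr => ?_)⟩
    · have hr' : r ≤ a' := hr
      show max 0 r ≤ a'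
      exact max_le ha0 hr'
    · have hr' : b' ≤ r := hr
      show b' ≤ max 0 r
      exact le_max_of_le_right hr'
  have h1 : ∀ᵐ ω ∂(PM e μ), {x : ℕ → V e | Ray q ω x}.Infinite :=
    hfin e (by omega) q μ hpos hnd
  have h2 : ∀ᵐ ω ∂P, {x : ℕ → V e | Ray q (fun s => t s ω) x}.Infinite := by
    refine htr e μ Ω mΩ P hP t htm hind ?_ (fun ω => {x : ℕ → V e | Ray q ω x}.Infinite) ?_ h1
    · rintro s ⟨x, y, rfl, hxy⟩
      exact hlaw x y hxy
    · intro ω ω' h
      have : {x : ℕ → V e | Ray q ω x} = {x | Ray q ω' x} := by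
        ext x; exact ray_congr q h x
      show ({x : ℕ → V e | Ray q ω x}.Infinite ↔ {x : ℕ → V e | Ray q ω' x}.Infinite)
      rw [this]
  have h3 : ∀ᵐ ω ∂P, ∀ s : Sym2 (V e), IsEdge s → 0 ≤ t s ω := by
    have : Countable (Sym2 (V e)) := by unfold Sym2; infer_instance
    rw [ae_all_iff]
    intro s
    by_cases hs : IsEdge s
    · obtain ⟨x, y, rfl, hxy⟩ := hs
      have hm : Measure.map (t s(x, y)) P = μ := hlaw x y hxy
      have h4 : P (t s(x, y) ⁻¹' Set.Iio 0) = 0 := by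
        rw [← Measure.map_apply (htm _) measurableSet_Iio, hm]; exact h0
      have h6 : ∀ᵐ ω ∂P, ω ∉ t s(x, y) ⁻¹' Set.Iio 0 := measure_eq_zero_iff_ae_notMem.1 h4
      filter_upwards [h6] with ω h8 _
      exact not_lt.1 h8
    · exact Eventually.of_forall fun ω h => absurd h hs
  filter_upwards [h2, h3] with ω h4 h5
  refine h4.mono fun x hx => ?_
  obtain ⟨hx0, hx1, hx2, hx3⟩ := hx
  refine ⟨hx0, hx2, hx1, fun m n hmn L p hp0 hpL hp => ?_⟩
  obtain ⟨W, hW⟩ := exists_walk_seq q (fun s => t s ω) p L hp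
  have h6 := T_le q (fun s => t s ω) W
  rw [hW, hp0, hpL, hx3 m n hmn, Finset.sum_Ico_eq_sum_range] at h6
  have h7 : ∑ k ∈ Finset.range (n - m), q.w (t s(x (m + k), x (m + k + 1)) ω) =
      ∑ k ∈ Finset.range (n - m), t s(x (m + k), x (m + k + 1)) ω := by
    refine Finset.sum_congr rfl fun k _ => ?_
    have := h5 _ (isEdge_of_adj (hx1 (m + k)))
    exact hqw _ this
  have h8 : ∑ k ∈ Finset.range L, q.w (t s(p k, p (k + 1)) ω) =
      ∑ k ∈ Finset.range L, t s(p k, p (k + 1)) ω := by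
    refine Finset.sum_congr rfl fun k hk => ?_
    have := h5 _ (isEdge_of_adj (hp k (Finset.mem_range.1 hk)))
    exact hqw _ this
  rw [h7, h8] at h6
  exact h6

end Pool.Agent.J6H67.NX
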